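import Pool.Agent.Helper20.Flip.Sh.Assemble

open Pool.Agent.Helper20.Flip

/-- SHORTEST (given a simple polygon with rational vertices and a natural number `k` in binary: is
there a sequence of at most `k` pocket flips that convexifies the polygon?) is NP-hard under
polynomial-time many-one reductions. -/
theorem Pool.Agent.Results.MP_bfe50c_lc.ShortestNPHard.result : NPHard SHORTEST :=
  Sh.shortest_hard
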